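import Mathlib
import Pool.Agent.Y263.GF.Plain

/-!
Corona theorem on the unit ball of `ℂ^n` for data which near every boundary point are asymptotic to
elements of the closed algebra generated by the functions `f ∘ ψ` (`f` bounded holomorphic on the
disc, `ψ` a holomorphic map from the ball to the disc with affine fibres) and one arbitrary bounded
holomorphic function.
-/

set_option autoImplicit false

open Metric Set Filter Topology

namespace Pool.Agent.Results.MP_ca0fc2_an.AffineFibres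

abbrev V (n : ℕ) := EuclideanSpace ℂ (Fin n)

/-- Bounded holomorphic functions on the unit ball `B` of `ℂ^n`. -/
def HInfty (n : ℕ) : Set (V n → ℂ) :=
  {f | DifferentiableOn ℂ f (ball 0 1) ∧ ∃ C : ℝ, ∀ z ∈ ball (0 : V n) 1, ‖f z‖ ≤ C}

/-- `ψ` is a holomorphic map from the unit ball to the unit disc, and the fibre of `ψ` through any
point `z` is the part in the ball of the affine subspace `z + ker ψ'(z)`. -/
def HasAffineFibres {n : ℕ} (ψ : V n → ℂ) : Prop :=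
  DifferentiableOn ℂ ψ (ball 0 1) ∧ (∀ z ∈ ball (0 : V n) 1, ‖ψ z‖ < 1) ∧
    ∀ z ∈ ball (0 : V n) 1, ∀ z' ∈ ball (0 : V n) 1, ψ z' = ψ z ↔ fderiv ℂ ψ z (z' - z) = 0

/-- The functions which are equal on `B` to `f ∘ ψ`, where `f` is bounded holomorphic on the disc
and `ψ` has affine fibres. -/
def Generators (n : ℕ) : Set (V n → ℂ) :=
  {h | ∃ (f : ℂ → ℂ) (ψ : V n → ℂ), DifferentiableOn ℂ f (ball 0 1) ∧
    (∃ C : ℝ, ∀ w ∈ ball (0 : ℂ) 1, ‖f w‖ ≤ C) ∧ HasAffineFibres ψ ∧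
    ∀ z ∈ ball (0 : V n) 1, h z = f (ψ z)}

/-- The functions which are uniform limits on `B` of elements of the algebra generated by `G` and
`Generators n`. -/
def Alg {n : ℕ} (G : V n → ℂ) : Set (V n → ℂ) :=
  {a | ∀ ε : ℝ, 0 < ε → ∃ b ∈ Algebra.adjoin ℂ (insert G (Generators n)),
    ∀ z ∈ ball (0 : V n) 1, ‖a z - b z‖ ≤ ε}

/-- Near `p` the functions `F j`, `j ∈ S`, satisfy the corona condition and are asymptotic to
elements of `Alg G`, for some index set `S` and some bounded holomorphic `G`. -/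
def GoodNear {n N : ℕ} (F : Fin N → V n → ℂ) (p : V n) : Prop :=
  ∃ G ∈ HInfty n, ∃ (S : Finset (Fin N)) (a : Fin N → V n → ℂ) (c : ℝ), 0 < c ∧
    (∀ᶠ z in 𝓝[ball 0 1] p, c ≤ ∑ j ∈ S, ‖F j z‖) ∧
    ∀ j ∈ S, a j ∈ Alg G ∧ Tendsto (fun z => F j z - a j z) (𝓝[ball 0 1] p) (𝓝 0)

theorem gen_eq (n : ℕ) : Generators n = Pool.Agent.Y263.GF.SF (V n) := by
  ext h
  constructor
  · rintro ⟨f, ψ, h1, h2, h3, h4⟩
    exact ⟨f, ψ, h1, h2, ⟨⟨h3.1, h3.2.2⟩, h3.2.1⟩, h4⟩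
  · rintro ⟨f, ψ, h1, h2, h3, h4⟩
    exact ⟨f, ψ, h1, h2, ⟨h3.1.diff, h3.2, h3.1.fib⟩, h4⟩

/-- **The corona theorem for data asymptotic to elements of the algebras `Alg G`**; and the linear
fractional maps from the ball to the disc are examples of `ψ`. -/
theorem result :
    (∀ (n N : ℕ) (F : Fin N → V n → ℂ), (∀ j, F j ∈ HInfty n) →
      (∀ z ∈ ball (0 : V n) 1, ∃ j, F j z ≠ 0) → (∀ p : V n, ‖p‖ = 1 → GoodNear F p) →
      ∃ g : Fin N → V n → ℂ, (∀ j, g j ∈ HInfty n) ∧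
        ∀ z ∈ ball (0 : V n) 1, ∑ j, F j z * g j z = 1) ∧
    (∀ (n : ℕ) (α β : V n →L[ℂ] ℂ) (a b : ℂ), (∀ z ∈ ball (0 : V n) 1, β z + b ≠ 0) →
      (∀ z ∈ ball (0 : V n) 1, ‖(α z + a) / (β z + b)‖ < 1) →
      HasAffineFibres (fun z => (α z + a) / (β z + b))) := by
  refine ⟨?_, ?_⟩
  · intro n N F hF h0 hp
    refine Pool.Agent.Y263.GF.local_plain F hF h0 ?_
    intro p hp1
    obtain ⟨G, hG, S, a, c, hc, h1, h2⟩ := hp p hp1
    refine ⟨G, hG, S, a, c, hc, h1, fun j hj => ⟨?_, (h2 j hj).2⟩⟩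
    rw [← gen_eq]
    exact (h2 j hj).1
  · intro n α β a b hne hlt
    have h := Pool.Agent.Y263.GF.frac_AF α β a b hne
    exact ⟨h.diff, hlt, h.fib⟩

end Pool.Agent.Results.MP_ca0fc2_an.AffineFibres
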