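import Mathlib
import Pool.Agent.Y263.GF.Alg

/-!
Localisation theorem for the corona problem on the unit ball of `ℂ^n`, with constants independent of
the dimension: bounded holomorphic functions of finitely many maps with affine fibres may be removed
from the corona data at the price of shrinking the ball to the set where they are small.
-/

set_option autoImplicit false

open Metric Set

namespace Pool.Agent.Results.MP_ca0fc2_an.Localisation

abbrev V (n : ℕ) := EuclideanSpace ℂ (Fin n)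

/-- `ψ` is a holomorphic map from the unit ball to the unit disc, and the fibre of `ψ` through any
point `z` is the part in the ball of the affine subspace `z + ker ψ'(z)`. -/
def HasAffineFibres {n : ℕ} (ψ : V n → ℂ) : Prop :=
  DifferentiableOn ℂ ψ (ball 0 1) ∧ (∀ z ∈ ball (0 : V n) 1, ‖ψ z‖ < 1) ∧
    ∀ z ∈ ball (0 : V n) 1, ∀ z' ∈ ball (0 : V n) 1, ψ z' = ψ z ↔ fderiv ℂ ψ z (z' - z) = 0

/-- The equation `∑ F_j g_j = 1` has a solution with `g_j` holomorphic on `Ω` and bounded by `C`. -/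
def Solvable {n : ℕ} (Ω : Set (V n)) {J : Type} [Fintype J] (F : J → V n → ℂ) (C : ℝ) : Prop :=
  ∃ g : J → V n → ℂ, (∀ j, DifferentiableOn ℂ (g j) Ω) ∧ (∀ j, ∀ z ∈ Ω, ‖g j z‖ ≤ C) ∧
    ∀ z ∈ Ω, ∑ j, F j z * g j z = 1

/-- **Localisation with constants independent of the dimension.** -/
theorem result (N K M : ℕ) (ε Q : ℝ) (hε : 0 < ε) :
    ∃ C : ℝ, ∀ (n : ℕ) (ψ : Fin K → V n → ℂ)
      (f : Fin K → Fin N → ℂ → ℂ) (G : Fin M → V n → ℂ), (∀ k, HasAffineFibres (ψ k)) →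
      (∀ k i, DifferentiableOn ℂ (f k i) (ball 0 1) ∧ ∀ w ∈ ball (0 : ℂ) 1, ‖f k i w‖ ≤ 1) →
      (∀ m, DifferentiableOn ℂ (G m) (ball 0 1) ∧ ∀ z ∈ ball (0 : V n) 1, ‖G m z‖ ≤ 1) →
      Solvable {z | z ∈ ball (0 : V n) 1 ∧ ∀ k i, ‖f k i (ψ k z)‖ < ε} G Q →
      Solvable (ball 0 1) (Sum.elim (fun (q : Fin K × Fin N) z => f q.1 q.2 (ψ q.1 z)) G) C := by
  obtain ⟨C, -, H⟩ := Pool.Agent.Y263.GF.loc_aff N K M (ε := ε) (Q := max Q 0) hε
    (le_max_right _ _)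
  refine ⟨C, ?_⟩
  intro n ψ f G hψ hf hG hs
  refine H (V n) ψ f (fun k => ⟨(hψ k).1, (hψ k).2.2⟩) (fun k => (hψ k).2.1)
    (fun k i => (hf k i).1) (fun k i => (hf k i).2) G (fun m => (hG m).1) (fun m => (hG m).2) ?_
  obtain ⟨g, h1, h2, h3⟩ := hs
  have hsub : {z : V n | ‖z‖ < 1 ∧ ∀ k i, ‖f k i (ψ k z)‖ < ε} ⊆
      {z | z ∈ ball (0 : V n) 1 ∧ ∀ k i, ‖f k i (ψ k z)‖ < ε} :=
    fun z hz => ⟨mem_ball_zero_iff.2 hz.1, hz.2⟩
  exact ⟨g, fun j => (h1 j).mono hsub, fun j z hz => (h2 j z (hsub hz)).trans (le_max_left _ _),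
    fun z hz => h3 z (hsub hz)⟩

end Pool.Agent.Results.MP_ca0fc2_an.Localisation
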