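import Mathlib
import Pool.Agent.Y263.SC.Fin

/-!
The corona theorem on every bounded strictly convex domain `D` of `ℂ²` for data
`f_1(α(z)), …, f_N(α(z)), G(z)`, where `α` is a linear functional, `f_i` are arbitrary bounded
holomorphic functions on `α(D)` and `G` is an arbitrary bounded holomorphic function on `D`, and for
products of such data.

* `Pool.Agent.Y263.SC.{Geo, Pt, Near, Near2, Rad, Bnd}`: estimates of the Leray kernel on the slices
  of a strictly convex domain, uniform over all slices, also where the slices shrink to a point.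
* `Pool.Agent.Y263.SC.{Rep, Exo}`: reproducing formula; bounded extension operators from all slices
  `D ∩ {w = ζ}` to `D` with norms bounded independently of `ζ`.
* `Pool.Agent.Y263.SC.{OpX, AsmX, SiegX}`: solution operator of P. Jones type with the extended
  functions as coefficients, Bezout equation.
* `Pool.Agent.Y263.SC.{C2, Mk, Fin}`: domains with `C²` boundary, linear changes of coordinates.
-/

set_option autoImplicit false

open Set

namespace Pool.Agent.Results.MP_ca0fc2_an.StrictlyConvex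

/-- `D` is a bounded convex domain `{ρ < 0}`, where `ρ` is of class `C²` near the closure of `D` and
has positive definite real Hessian at all points of the closure of `D`. -/
def IsStrictlyConvex (D : Set (ℂ × ℂ)) : Prop :=
  Convex ℝ D ∧ Bornology.IsBounded D ∧ ∃ (O : Set (ℂ × ℂ)) (ρ : ℂ × ℂ → ℝ),
    IsOpen O ∧ closure D ⊆ O ∧ ContDiffOn ℝ 2 ρ O ∧ D = {p | p ∈ O ∧ ρ p < 0} ∧
    ∀ p ∈ closure D, ∀ v : ℂ × ℂ, v ≠ 0 → 0 < fderiv ℝ (fderiv ℝ ρ) p v v

/-- **Corona theorem on strictly convex domains for functions of one linear coordinate and one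
arbitrary function.** (`m = 1`: data `f_1(α(z)), …, f_N(α(z)), G(z)`; in general all products with
one factor from each of `m` such families, and `G`.) -/
theorem result (D : Set (ℂ × ℂ)) (hD : IsStrictlyConvex D) (m : ℕ) (N : Fin m → ℕ)
    (α : Fin m → (ℂ × ℂ →L[ℂ] ℂ)) (hα : ∀ j, α j ≠ 0) (δ : ℝ) (hδ : 0 < δ) :
    ∃ C : ℝ, ∀ (f : (j : Fin m) → Fin (N j) → ℂ → ℂ),
      (∀ j i, DifferentiableOn ℂ (f j i) (α j '' D)) →
      (∀ j i, ∀ x ∈ α j '' D, ‖f j i x‖ ≤ 1) →
      ∀ (G : ℂ × ℂ → ℂ), DifferentiableOn ℂ G D → (∀ z ∈ D, ‖G z‖ ≤ 1) →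
      (∀ z ∈ D,
        δ ≤ (∑ ι : (j : Fin m) → Fin (N j), ‖∏ j, f j (ι j) (α j z)‖) + ‖G z‖) →
      ∃ (g : ((j : Fin m) → Fin (N j)) → ℂ × ℂ → ℂ) (g₀ : ℂ × ℂ → ℂ),
        (∀ ι, DifferentiableOn ℂ (g ι) D) ∧ DifferentiableOn ℂ g₀ D ∧
        (∀ ι, ∀ z ∈ D, ‖g ι z‖ ≤ C) ∧ (∀ z ∈ D, ‖g₀ z‖ ≤ C) ∧
        ∀ z ∈ D, ∑ ι, (∏ j, f j (ι j) (α j z)) * g ι z + G z * g₀ z = 1 := by
  obtain ⟨hc, hb, O, ρ, hO, hcl, hC2, heq, hH⟩ := hD
  exact Pool.Agent.Y263.SC.main (O := O) (ρ := ρ) ⟨hO, hcl, hC2, heq, hb, hc, hH⟩ m N α hα hδ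

end Pool.Agent.Results.MP_ca0fc2_an.StrictlyConvex
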