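import Mathlib
import Pool.Agent.Y263.RB.Fin

/-!
# Arbitrary corona data on the ball: solutions up to `ε` near totally real balls and complex geodesics

The totally geodesic submanifolds of the ball `B` of `ℂ^m` with the Bergman metric are the images of
`B ∩ ℂ^k` and of `B ∩ ℝ^k` under automorphisms. For arbitrary corona data on `B` there are bounded
holomorphic `g_j` on all of `B` with `|∑ f_j g_j - 1| ≤ ε` on the neighbourhoods of radius `r` of `l`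
given images of `B ∩ ℝ^m` (totally real) and of `B ∩ ℂ p` (complex geodesics), with a bound that does
not depend on the data nor on the position of the submanifolds. For `B ∩ ℂ^k`, `2 ≤ k`, the same
statement contains the corona theorem with uniform bounds on the ball of `ℂ^k`.
-/

set_option autoImplicit false

open Metric Set Filter Topology

namespace Pool.Agent.Results.MP_ca0fc2_an.TotallyGeodesic

/-- `ℂ^m` with the Euclidean norm. -/
abbrev V (m : ℕ) := EuclideanSpace ℂ (Fin m)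

/-- The closed neighbourhood of radius `r` of `M ∩ B` in the pseudohyperbolic (automorphism
invariant) distance `d` of the unit ball `B`, given by
`1 - d (x, z)² = (1 - |x|²) (1 - |z|²) / |1 - ⟨x, z⟩|²`. -/
def Near {m : ℕ} (r : ℝ) (M : Set (V m)) : Set (V m) :=
  {z | ‖z‖ < 1 ∧ ∃ x ∈ M, ‖x‖ < 1 ∧
    (1 - r ^ 2) * ‖1 - (inner ℂ x z : ℂ)‖ ^ 2 ≤ (1 - ‖x‖ ^ 2) * (1 - ‖z‖ ^ 2)}

/-- **Solutions near complex geodesics and totally real balls** (`ψ j` are automorphisms of the ball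
with inverses `φ j`). -/
theorem result (m N l : ℕ) (δ ε r : ℝ) (p : V m) (hp : ‖p‖ = 1) (hδ : 0 < δ) (hε : 0 < ε)
    (hr0 : 0 ≤ r) (hr : r < 1) :
    ∃ C : ℝ, ∀ ψ φ : Fin l → V m → V m,
    (∀ j, DifferentiableOn ℂ (ψ j) (ball 0 1) ∧ DifferentiableOn ℂ (φ j) (ball 0 1) ∧
      MapsTo (ψ j) (ball 0 1) (ball 0 1) ∧ MapsTo (φ j) (ball 0 1) (ball 0 1) ∧
      (∀ z ∈ ball (0 : V m) 1, φ j (ψ j z) = z) ∧ ∀ z ∈ ball (0 : V m) 1, ψ j (φ j z) = z) →
    ∀ f : Fin N → V m → ℂ, (∀ i, DifferentiableOn ℂ (f i) (ball 0 1)) →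
      (∀ i, ∀ z ∈ ball (0 : V m) 1, ‖f i z‖ ≤ 1) →
      (∀ z ∈ ball (0 : V m) 1, δ ≤ ∑ i, ‖f i z‖) →
      ∃ g : Fin N → V m → ℂ, (∀ i, DifferentiableOn ℂ (g i) (ball 0 1)) ∧
        (∀ i, ∀ z ∈ ball (0 : V m) 1, ‖g i z‖ ≤ C) ∧
        ∀ j, ∀ z ∈ Near r {x : V m | ∃ c : ℂ, x = c • p} ∪ Near r {x : V m | ∀ i, (x i).im = 0},
          ‖∑ i, f i (ψ j z) * g i (ψ j z) - 1‖ ≤ ε := by
  obtain ⟨C, hC⟩ := Pool.Agent.Y263.RB.geodesic m N l δ ε r p hp hδ hε hr0 hr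
  refine ⟨C, fun ψ φ h f hf hfb hfl => ?_⟩
  exact hC ψ φ (fun j => ⟨(h j).1, (h j).2.1, (h j).2.2.1, (h j).2.2.2.1, (h j).2.2.2.2.1,
    (h j).2.2.2.2.2⟩) f ⟨hf, hfb, hfl⟩

end Pool.Agent.Results.MP_ca0fc2_an.TotallyGeodesic
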